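import Mathlib
import Pool.Agent.Work.MP_235410_co.Main

/-!
# Long abelian cubes are avoidable over two letters

There is an infinite word over two letters no factor of which is an abelian cube of period at
least `18015`.
-/

set_option autoImplicit false

namespace Pool.Agent.Results.MP_235410_co.LongAbelianCubes

/-- The finite word `u` is a factor of the infinite word `x`: a block of consecutive letters. -/
def IsFactor {A : Type} (u : List A) (x : ℕ → A) : Prop :=
  ∃ i n : ℕ, u = (List.range' i n).map x

/-- `u` is an abelian cube of period `p`: `u = u₁u₂u₃` with `|u₁| = |u₂| = |u₃| = p ≥ 1` and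
`u₁, u₂, u₃` have the same Parikh vector. -/
def IsAbelianCube {A : Type} [DecidableEq A] (p : ℕ) (u : List A) : Prop :=
  1 ≤ p ∧ ∃ u₁ u₂ u₃ : List A, u = u₁ ++ u₂ ++ u₃ ∧
    u₁.length = p ∧ u₂.length = p ∧ u₃.length = p ∧
    (∀ a : A, u₁.count a = u₂.count a) ∧ (∀ a : A, u₂.count a = u₃.count a)

/-- the infinite word -/
noncomputable def word (i : ℕ) : Fin 2 := if Pool.Agent.Work.MP235410.w i = true then 1 else 0

theorem count_word (i n : ℕ) : ((List.range' i n).map word).count 1 =
    ((Finset.Ico i (i + n)).filter (fun j => Pool.Agent.Work.MP235410.w j = true)).card := by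
  induction n with
  | zero => simp
  | succ n ih =>
    rw [List.range'_1_concat, List.map_append, List.count_append, ih, ← add_assoc,
      ← Finset.insert_Ico_right_eq_Ico_add_one (by omega), Finset.filter_insert]
    by_cases h : Pool.Agent.Work.MP235410.w (i + n) = true
    · rw [if_pos h, Finset.card_insert_of_notMem (by simp)]
      simp [word, h]
    · rw [if_neg h]
      simp [word, h]

theorem result : ∃ x : ℕ → Fin 2, ∀ (u : List (Fin 2)) (p : ℕ),
    IsFactor u x → IsAbelianCube p u → p < 18015 := by
  refine ⟨word, ?_⟩
  rintro u p ⟨i, n, rfl⟩ ⟨hp, u₁, u₂, u₃, hu, h₁, h₂, h₃, h12, h23⟩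
  by_contra hlt
  push Not at hlt
  have hn : n = p + p + p := by
    have := congrArg List.length hu
    simp only [List.length_map, List.length_range', List.length_append, h₁, h₂, h₃] at this
    omega
  subst hn
  have e : (List.range' i (p + p + p)).map word =
      (List.range' i p).map word ++ (List.range' (i + p) p).map word ++
        (List.range' (i + 2 * p) p).map word := by
    rw [← List.map_append, ← List.map_append]
    congr 1
    rw [List.range'_append_1, show i + 2 * p = i + (p + p) by ring, List.range'_append_1]
  rw [e] at hu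
  obtain ⟨e12, e3⟩ := List.append_inj hu (by simp [h₁, h₂])
  obtain ⟨e1, e2⟩ := List.append_inj e12 (by simp [h₁])
  have c1 := count_word i p
  have c2 := count_word (i + p) p
  have c3 := count_word (i + 2 * p) p
  rw [e1] at c1
  rw [e2] at c2
  rw [e3] at c3
  refine Pool.Agent.Work.MP235410.no_long_abelian_cube i p hlt ⟨?_, ?_⟩
  · rw [← c1, show i + 2 * p = i + p + p by ring, ← c2]
    exact h12 1
  · rw [show i + 3 * p = i + 2 * p + p by ring, ← c3, show i + 2 * p = i + p + p by ring, ← c2]
    exact h23 1

end Pool.Agent.Results.MP_235410_co.LongAbelianCubes
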